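import Pool.Agent.TH930.ZT.Law
import Pool.Agent.TH930.LT.Param

set_option autoImplicit false

/-! The law of the descent in logarithmic time for the `3x+k` map on the integers: the exponents. -/

namespace Pool.Agent.TH930.ZT

open Pool.Agent.H499R2.ND
open Pool.Agent.TH930.LT (kappa_lt exists_param rate_pos)

/-- the binary entropy function, in bits -/
noncomputable def H (p : ℝ) : ℝ := Real.binEntropy p / Real.log 2

/-- `n` reaches some `|T^m(n)| ≤ y` after `m ≤ B log |n / T^m(n)|` steps -/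
def Desc (k : ℤ) (B y : ℝ) (n : ℤ) : Prop :=
  ∃ m : ℕ, |(((Td k)^[m] n : ℤ) : ℝ)| ≤ y ∧
    (m : ℝ) ≤ B * Real.log (|(n : ℝ)| / |(((Td k)^[m] n : ℤ) : ℝ)|)

lemma desc_iff {k : ℤ} (h0 : ∀ x : ℤ, x ≠ 0 → Td k x ≠ 0) {B y : ℝ} {n : ℤ} (hn : n ≠ 0) :
    ¬ Desc k B y n ↔ timeBad k B y n := by
  unfold Desc timeBad
  rw [not_iff_not]
  apply exists_congr
  intro m
  have h1 : |(n : ℝ)| ≠ 0 := (lt_of_lt_of_le one_pos (one_le_abs' hn)).ne'
  have h2 : |(((Td k)^[m] n : ℤ) : ℝ)| ≠ 0 := (lt_of_lt_of_le one_pos (one_le_abs' (iter_ne h0 hn m))).ne'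
  rw [Real.log_div h1 h2]

lemma set_eq {k : ℤ} (h0 : ∀ x : ℤ, x ≠ 0 → Td k x ≠ 0) (B x y : ℝ) :
    {n : ℤ | n ≠ 0 ∧ |(n : ℝ)| ≤ x ∧ ¬ Desc k B y n} =
    {n : ℤ | n ≠ 0 ∧ |(n : ℝ)| ≤ x ∧ timeBad k B y n} := by
  ext n
  simp only [Set.mem_ofPred_eq]
  constructor
  · rintro ⟨h1, h2, h3⟩
    exact ⟨h1, h2, (desc_iff h0 h1).1 h3⟩
  · rintro ⟨h1, h2, h3⟩
    exact ⟨h1, h2, (desc_iff h0 h1).2 h3⟩

lemma desc_mono {k : ℤ} {B B' y : ℝ} {n : ℤ} (hB : 0 < B) (hBB : B ≤ B') (h : Desc k B y n) :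
    Desc k B' y n := by
  obtain ⟨m, h1, h2⟩ := h
  refine ⟨m, h1, h2.trans ?_⟩
  apply mul_le_mul_of_nonneg_right hBB
  have h3 : (0 : ℝ) ≤ B * Real.log (|(n : ℝ)| / |(((Td k)^[m] n : ℤ) : ℝ)|) := le_trans (Nat.cast_nonneg m) h2
  exact nonneg_of_mul_nonneg_right h3 hB

/-- the bound with the exponent `c` and the constant `B` -/
def Law (k : ℤ) (B c : ℝ) : Prop := ∃ C : ℝ, 0 < C ∧ ∀ x y : ℝ, 2 ≤ x → 1 ≤ y →
  ({n : ℤ | n ≠ 0 ∧ |(n : ℝ)| ≤ x ∧ ¬ Desc k B y n}.ncard : ℝ) ≤ C * Real.log x ^ 5 * (x / y ^ c)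

lemma law_one {k : ℤ} (hk : Odd k) (hk0 : ∀ x : ℤ, x ≠ 0 → Td k x ≠ 0) (B : ℝ)
    (hB : 2 / Real.log (4 / 3) < B) :
    ∃ c : ℝ, 1 - H ((Real.log 2 - 1 / B) / Real.log 3) < c ∧ Law k B c := by
  have hl2 : 0 < Real.log 2 := Real.log_pos (by norm_num)
  have hl3 : 0 < Real.log 3 := Real.log_pos (by norm_num)
  have e43 : Real.log (4 / 3) = 2 * Real.log 2 - Real.log 3 := by
    rw [Real.log_div (by norm_num) (by norm_num), show (4 : ℝ) = 2 ^ 2 by norm_num, Real.log_pow]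
    push_cast; ring
  have h43 : 0 < Real.log (4 / 3) := Real.log_pos (by norm_num)
  have hkap := kappa_lt
  have hB0 : 0 < B := lt_trans (by positivity) hB
  set p₀ : ℝ := (Real.log 2 - 1 / B) / Real.log 3 with hp₀
  have hB1 : 1 / B < Real.log (4 / 3) / 2 := by
    rw [div_lt_iff₀ h43] at hB
    rw [div_lt_iff₀ hB0]
    linarith
  have h0 : 1 / 2 < p₀ := by
    rw [hp₀, lt_div_iff₀ hl3]
    rw [e43] at hB1
    linarith
  have h1 : p₀ < 631 / 1000 := by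
    refine lt_trans ?_ hkap
    rw [hp₀]
    apply div_lt_div_of_pos_right _ hl3
    have : 0 < 1 / B := by positivity
    linarith
  obtain ⟨τ, p, c, hτ0, hτ1, hp1, hp2, hc1, hc2, hc3⟩ := exists_param h0 h1.le
  have hBa : 1 < B * (Real.log 2 - p * Real.log 3) := by
    have h2 : p * Real.log 3 < p₀ * Real.log 3 := mul_lt_mul_of_pos_right hp2 hl3
    have h3 : p₀ * Real.log 3 = Real.log 2 - 1 / B := by rw [hp₀]; field_simp
    rw [h3] at h2
    have h4 : B * (1 / B) < B * (Real.log 2 - p * Real.log 3) :=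
      mul_lt_mul_of_pos_left (by linarith) hB0
    rwa [mul_one_div_cancel hB0.ne'] at h4
  have hr0 := rate_pos h0
  obtain ⟨C, hC, h⟩ := time_law hk hk0 hτ0 hτ1 hp1 (by linarith) hB0 hBa (c := c) (by linarith)
    (by linarith) hc3
  refine ⟨c, hc1, C, hC, fun x y hx hy => ?_⟩
  rw [set_eq hk0]
  exact h x y hx hy

lemma law_two {k : ℤ} (hk : Odd k) (hk0 : ∀ x : ℤ, x ≠ 0 → Td k x ≠ 0) :
    ∃ B c : ℝ, 0 < B ∧ 1 - H (Real.log 2 / Real.log 3) < c ∧ Law k B c := by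
  have hl2 : 0 < Real.log 2 := Real.log_pos (by norm_num)
  have hl3 : 0 < Real.log 3 := Real.log_pos (by norm_num)
  have e43 : Real.log (4 / 3) = 2 * Real.log 2 - Real.log 3 := by
    rw [Real.log_div (by norm_num) (by norm_num), show (4 : ℝ) = 2 ^ 2 by norm_num, Real.log_pow]
    push_cast; ring
  have h43 : 0 < Real.log (4 / 3) := Real.log_pos (by norm_num)
  have hkap := kappa_lt
  have h0 : 1 / 2 < Real.log 2 / Real.log 3 := by
    rw [lt_div_iff₀ hl3]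
    linarith
  obtain ⟨τ, p, c, hτ0, hτ1, hp1, hp2, hc1, hc2, hc3⟩ := exists_param h0 hkap.le
  have ha : 0 < Real.log 2 - p * Real.log 3 := by
    rw [lt_div_iff₀ hl3] at hp2
    linarith
  have hr0 := rate_pos h0
  obtain ⟨C, hC, h⟩ := time_law hk hk0 hτ0 hτ1 hp1 (by linarith) (B := 2 / (Real.log 2 - p * Real.log 3))
    (by positivity) (by rw [div_mul_cancel₀ _ ha.ne']; norm_num) (c := c) (by linarith) (by linarith) hc3
  refine ⟨2 / (Real.log 2 - p * Real.log 3), c, by positivity, hc1, C, hC, fun x y hx hy => ?_⟩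
  rw [set_eq hk0]
  exact h x y hx hy

lemma fin_set (P : ℤ → Prop) (x : ℝ) : {n : ℤ | n ≠ 0 ∧ |(n : ℝ)| ≤ x ∧ P n}.Finite := by
  apply (Set.finite_Icc (-⌈x⌉) ⌈x⌉).subset
  rintro n ⟨-, hx, -⟩
  have h1 := abs_le.1 hx
  have h2 := Int.le_ceil x
  rw [Set.mem_Icc]
  constructor
  · have : (-(⌈x⌉ : ℤ) : ℝ) ≤ n := by linarith
    exact_mod_cast this
  · have : (n : ℝ) ≤ (⌈x⌉ : ℤ) := by linarith
    exact_mod_cast this

lemma law_mono {k : ℤ} {B B' c : ℝ} (hB : 0 < B) (hBB : B ≤ B') (h : Law k B c) : Law k B' c := by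
  obtain ⟨C, hC, h⟩ := h
  refine ⟨C, hC, fun x y hx hy => le_trans ?_ (h x y hx hy)⟩
  have hsub : {n : ℤ | n ≠ 0 ∧ |(n : ℝ)| ≤ x ∧ ¬ Desc k B' y n} ⊆
      {n : ℤ | n ≠ 0 ∧ |(n : ℝ)| ≤ x ∧ ¬ Desc k B y n} := by
    rintro n ⟨h1, h2, h3⟩
    exact ⟨h1, h2, fun h4 => h3 (desc_mono hB hBB h4)⟩
  exact_mod_cast Set.ncard_le_ncard hsub (fin_set _ x)

/-- the law with all its exponents -/
theorem law {k : ℤ} (hk : Odd k) (hk0 : ∀ x : ℤ, x ≠ 0 → Td k x ≠ 0) :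
    ∃ (c : ℝ → ℝ) (B₁ : ℝ), (∀ B : ℝ, B₁ ≤ B → 1 - H (Real.log 2 / Real.log 3) < c B) ∧
    ∀ B : ℝ, 2 / Real.log (4 / 3) < B →
      1 - H ((Real.log 2 - 1 / B) / Real.log 3) < c B ∧ Law k B (c B) := by
  classical
  obtain ⟨B₁, c₁, hB₁, hc₁, hL₁⟩ := law_two hk hk0
  have h1 : ∀ B : ℝ, ∃ c : ℝ, 2 / Real.log (4 / 3) < B →
      1 - H ((Real.log 2 - 1 / B) / Real.log 3) < c ∧ Law k B c := by
    intro B
    by_cases hB : 2 / Real.log (4 / 3) < B
    · obtain ⟨c, hc⟩ := law_one hk hk0 B hB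
      exact ⟨c, fun _ => hc⟩
    · exact ⟨0, fun h => absurd h hB⟩
  choose f hf using h1
  refine ⟨fun B => if B₁ ≤ B then c₁ else f B, B₁, fun B hB => ?_, fun B hB => ?_⟩
  · simp only [if_pos hB]
    exact hc₁
  · by_cases hBB : B₁ ≤ B
    · simp only [if_pos hBB]
      refine ⟨lt_of_le_of_lt ?_ hc₁, law_mono hB₁ hBB hL₁⟩
      have hl2 : 0 < Real.log 2 := Real.log_pos (by norm_num)
      have hl3 : 0 < Real.log 3 := Real.log_pos (by norm_num)
      have e43 : Real.log (4 / 3) = 2 * Real.log 2 - Real.log 3 := by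
        rw [Real.log_div (by norm_num) (by norm_num), show (4 : ℝ) = 2 ^ 2 by norm_num, Real.log_pow]
        push_cast; ring
      have h43 : 0 < Real.log (4 / 3) := Real.log_pos (by norm_num)
      have hB0 : 0 < B := lt_trans (by positivity) hB
      have hB1 : 1 / B < Real.log (4 / 3) / 2 := by
        rw [div_lt_iff₀ h43] at hB
        rw [div_lt_iff₀ hB0]
        linarith
      have h0 : 1 / 2 ≤ (Real.log 2 - 1 / B) / Real.log 3 := by
        rw [le_div_iff₀ hl3]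
        rw [e43] at hB1
        linarith
      have h2 : (Real.log 2 - 1 / B) / Real.log 3 ≤ Real.log 2 / Real.log 3 := by
        apply div_le_div_of_nonneg_right _ hl3.le
        have : 0 < 1 / B := by positivity
        linarith
      have h3 : Real.log 2 / Real.log 3 ≤ 1 := by
        have := kappa_lt
        linarith
      have h4 : Real.binEntropy (Real.log 2 / Real.log 3) ≤
          Real.binEntropy ((Real.log 2 - 1 / B) / Real.log 3) :=
        Real.binEntropy_strictAntiOn.antitoneOn ⟨by rw [← one_div]; exact h0, h2.trans h3⟩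
          ⟨by rw [← one_div]; exact h0.trans h2, h3⟩ h2
      unfold H
      have h5 := div_le_div_of_nonneg_right h4 hl2.le
      linarith
    · simp only [if_neg hBB]
      exact hf B hB

end Pool.Agent.TH930.ZT
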