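import Pool.Agent.TH930.ZT.Rate

set_option autoImplicit false

/-! Descending through the levels, with an account of the time, for the `3x+k` map on the integers. -/

namespace Pool.Agent.TH930.ZT

open Finset Pool.Agent.H499R2.ND
open Pool.Agent.TH930.LT (Kt Et cs Kt_ge rate)

/-- the level of a nonzero integer -/
def lev (z : ℤ) : ℕ := Nat.log 2 z.natAbs + 1

lemma abs_natAbs (z : ℤ) : |(z : ℝ)| = ((z.natAbs : ℕ) : ℝ) := by
  rw [← Int.cast_abs, Nat.cast_natAbs]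

lemma lev_lt (z : ℤ) : |(z : ℝ)| < (2 : ℝ) ^ lev z := by
  rw [abs_natAbs]
  have : z.natAbs < 2 ^ lev z := Nat.lt_pow_succ_log_self (by norm_num) _
  exact_mod_cast this

lemma lev_le {z : ℤ} (hz : z ≠ 0) : (2 : ℝ) ^ lev z ≤ 2 * |(z : ℝ)| := by
  rw [abs_natAbs]
  have h1 : 2 ^ (Nat.log 2 z.natAbs) ≤ z.natAbs := Nat.pow_log_le_self 2 (Int.natAbs_ne_zero.2 hz)
  have h2 : ((2 : ℝ) ^ (Nat.log 2 z.natAbs)) ≤ z.natAbs := by exact_mod_cast h1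
  unfold lev
  rw [pow_succ]; linarith

lemma one_le_abs' {z : ℤ} (hz : z ≠ 0) : (1 : ℝ) ≤ |(z : ℝ)| := by
  rw [← Int.cast_abs]
  exact_mod_cast Int.one_le_abs hz

lemma iter_ne {k : ℤ} (h0 : ∀ x : ℤ, x ≠ 0 → Td k x ≠ 0) {x : ℤ} (hx : x ≠ 0) (n : ℕ) :
    (Td k)^[n] x ≠ 0 := by
  induction n with
  | zero => exact hx
  | succ n ih => rw [Function.iterate_succ_apply']; exact h0 _ ih

/-- first passage below `2 ^ i` after exactly `m` steps -/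
def FPz (k : ℤ) (i m : ℕ) (x : ℤ) : Prop :=
  (∀ j < m, (2 : ℝ) ^ i ≤ |(((Td k)^[j] x : ℤ) : ℝ)|) ∧ |(((Td k)^[m] x : ℤ) : ℝ)| < (2 : ℝ) ^ i

/-- a point outside of `Qz` descends -/
lemma not_Qz {k : ℤ} {τ a : ℝ} (hτ : 0 ≤ τ) (ha : 0 < a) {i : ℕ} {z : ℤ} (hz1 : |(z : ℝ)| < (2 : ℝ) ^ i)
    (hz2 : (2 : ℝ) ^ i ≤ 2 * |(z : ℝ)|) (h : z ∉ Qz k τ a i) (hi : 2 * Real.log 2 ≤ a * ((i - 1 : ℕ) : ℝ)) :
    |(((Td k)^[Kt τ i] z : ℤ) : ℝ)| < |(z : ℝ)| * Real.exp (-(a * Kt τ i)) ∧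
      4 * |(((Td k)^[Kt τ i] z : ℤ) : ℝ)| < |(z : ℝ)| := by
  have h1 : |(((Td k)^[Kt τ i] z : ℤ) : ℝ)| < |(z : ℝ)| * Real.exp (-(a * Kt τ i)) := by
    by_contra hcon
    rw [not_lt] at hcon
    exact h (mem_Qz.2 ⟨hz1, hz2, hcon⟩)
  refine ⟨h1, ?_⟩
  have h2 : ((i - 1 : ℕ) : ℝ) ≤ Kt τ i := by exact_mod_cast Kt_ge hτ i
  have h3 : Real.exp (-(a * Kt τ i)) ≤ 1 / 4 := by
    have e : (1 / 4 : ℝ) = Real.exp (-(2 * Real.log 2)) := by
      rw [Real.exp_neg, ← Real.log_rpow (by norm_num), Real.exp_log (by norm_num)]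
      norm_num
    rw [e]
    apply Real.exp_le_exp.2
    have := mul_le_mul_of_nonneg_left h2 ha.le
    linarith
  have h4 : |(((Td k)^[Kt τ i] z : ℤ) : ℝ)| < |(z : ℝ)| * (1 / 4) :=
    h1.trans_le (mul_le_mul_of_nonneg_left h3 (abs_nonneg _))
  linarith

/-- THE CHAIN, with the time -/
theorem time_chain {k : ℤ} (h0 : ∀ x : ℤ, x ≠ 0 → Td k x ≠ 0) {τ a B : ℝ} (hτ : 0 ≤ τ) (ha : 0 < a)
    {n l M : ℕ} {x : ℤ} (hx : x ≠ 0)
    (hxk : |(x : ℝ)| < (2 : ℝ) ^ n) (hl1 : 2 * Real.log 2 ≤ a * l) (hB0 : 0 < B)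
    (hl2 : B * Real.log 2 ≤ (B * a - 1) * l)
    (hBa : 1 ≤ B * a) (hM : B * (n * Real.log 2) ≤ M)
    (h : ∀ i m, l < i → i ≤ n → m ≤ M → FPz k i m x → (Td k)^[m] x ∉ Qz k τ a i) :
    ∀ i m, i ≤ n → FPz k i m x → (2 : ℝ) ^ i ≤ 2 * |(((Td k)^[m] x : ℤ) : ℝ)| →
      (m : ℝ) ≤ B * (Real.log |(x : ℝ)| - Real.log |(((Td k)^[m] x : ℤ) : ℝ)|) →
      ∃ m', |(((Td k)^[m'] x : ℤ) : ℝ)| < (2 : ℝ) ^ l ∧
        (m' : ℝ) ≤ B * (Real.log |(x : ℝ)| - Real.log |(((Td k)^[m'] x : ℤ) : ℝ)|) := by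
  classical
  have hl0 : 0 < Real.log 2 := Real.log_pos (by norm_num)
  intro i
  induction i using Nat.strong_induction_on with
  | _ i ih =>
    intro m hik hfp hy hm
    rcases Nat.lt_or_ge l i with hli | hli
    swap
    · exact ⟨m, hfp.2.trans_le (pow_le_pow_right₀ (by norm_num) hli), hm⟩
    set z := (Td k)^[m] x with hz
    have hz0 : z ≠ 0 := iter_ne h0 hx m
    have hz1 : (1 : ℝ) ≤ |(z : ℝ)| := one_le_abs' hz0
    have hz0R : (0 : ℝ) < |(z : ℝ)| := by linarith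
    have hlz : 0 ≤ Real.log |(z : ℝ)| := Real.log_nonneg hz1
    have hx1 : (1 : ℝ) ≤ |(x : ℝ)| := one_le_abs' hx
    have hlx : Real.log |(x : ℝ)| ≤ n * Real.log 2 := by
      rw [← Real.log_pow]
      exact Real.log_le_log (by linarith) hxk.le
    have hmM : m ≤ M := by
      have h1 : (m : ℝ) ≤ M := by
        refine hm.trans (le_trans ?_ hM)
        exact mul_le_mul_of_nonneg_left (by linarith) hB0.le
      exact_mod_cast h1
    have hns := h i m hli hik hmM hfp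
    have hil : (l : ℝ) ≤ ((i - 1 : ℕ) : ℝ) := by
      have : l ≤ i - 1 := by omega
      exact_mod_cast this
    obtain ⟨q1, q2⟩ := not_Qz hτ ha hfp.2 hy hns (hl1.trans (mul_le_mul_of_nonneg_left hil ha.le))
    set K := Kt τ i with hK
    have hKl : (l : ℝ) ≤ K := hil.trans (by exact_mod_cast Kt_ge hτ i)
    set w0 := (Td k)^[K] z with hw0
    have hw00 : w0 ≠ 0 := iter_ne h0 hz0 K
    have hw0R : (0 : ℝ) < |(w0 : ℝ)| := lt_of_lt_of_le one_pos (one_le_abs' hw00)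
    have hlw0 : Real.log |(w0 : ℝ)| ≤ Real.log |(z : ℝ)| - a * K := by
      have h1 := Real.log_le_log hw0R q1.le
      rw [Real.log_mul hz0R.ne' (Real.exp_pos _).ne', Real.log_exp] at h1
      linarith
    -- the level of `w0`
    set j := lev w0 with hj
    have hj1 : |(w0 : ℝ)| < (2 : ℝ) ^ j := lev_lt w0
    have hj2 : (2 : ℝ) ^ j ≤ 2 * |(w0 : ℝ)| := lev_le hw00
    have hzi : |(z : ℝ)| < (2 : ℝ) ^ i := hfp.2
    have hji : j < i := by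
      have h1 : (2 : ℝ) ^ j < (2 : ℝ) ^ i := by linarith
      exact (pow_lt_pow_iff_right₀ (by norm_num : (1 : ℝ) < 2)).1 h1
    have hex : ∃ r, |(((Td k)^[r] x : ℤ) : ℝ)| < (2 : ℝ) ^ j :=
      ⟨K + m, by rw [Function.iterate_add_apply]; exact hj1⟩
    set m' := Nat.find hex with hm'
    have hm'1 : |(((Td k)^[m'] x : ℤ) : ℝ)| < (2 : ℝ) ^ j := Nat.find_spec hex
    have hm'2 : ∀ r < m', (2 : ℝ) ^ j ≤ |(((Td k)^[r] x : ℤ) : ℝ)| := fun r hr => not_lt.1 (Nat.find_min hex hr)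
    have hm'3 : m' ≤ K + m := Nat.find_min' hex (by rw [Function.iterate_add_apply]; exact hj1)
    set w := (Td k)^[m'] x with hw
    have hw_0 : w ≠ 0 := iter_ne h0 hx m'
    have hwR : (0 : ℝ) < |(w : ℝ)| := lt_of_lt_of_le one_pos (one_le_abs' hw_0)
    set j' := lev w with hj'
    have hj'1 : |(w : ℝ)| < (2 : ℝ) ^ j' := lev_lt w
    have hj'2 : (2 : ℝ) ^ j' ≤ 2 * |(w : ℝ)| := lev_le hw_0
    have hj'j : j' ≤ j := by
      have h1 : (2 : ℝ) ^ j' < (2 : ℝ) ^ (j + 1) := by rw [pow_succ]; linarith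
      have := (pow_lt_pow_iff_right₀ (by norm_num : (1 : ℝ) < 2)).1 h1
      omega
    have hfp' : FPz k j' m' x :=
      ⟨fun r hr => (pow_le_pow_right₀ (by norm_num) hj'j).trans (hm'2 r hr), hj'1⟩
    apply ih j' (by omega) m' (by omega) hfp' hj'2
    -- the time
    have hlw : Real.log |(w : ℝ)| ≤ Real.log |(w0 : ℝ)| + Real.log 2 := by
      have h1 : |(w : ℝ)| ≤ |(w0 : ℝ)| * 2 := by linarith
      have h2 := Real.log_le_log hwR h1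
      rwa [Real.log_mul hw0R.ne' (by norm_num)] at h2
    have h1 : (m' : ℝ) ≤ K + m := by exact_mod_cast hm'3
    have h2 : (B * a - 1) * l ≤ (B * a - 1) * K := mul_le_mul_of_nonneg_left hKl (by linarith)
    have h3 : B * (Real.log |(z : ℝ)| - Real.log |(w : ℝ)|) ≥ B * (a * K - Real.log 2) := by
      apply mul_le_mul_of_nonneg_left _ hB0.le
      linarith
    nlinarith

/-- the chain from the start -/
theorem time_start {k : ℤ} (h0 : ∀ x : ℤ, x ≠ 0 → Td k x ≠ 0) {τ a B : ℝ} (hτ : 0 ≤ τ) (ha : 0 < a)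
    {n l M : ℕ} {x : ℤ} (hx : x ≠ 0)
    (hxk : |(x : ℝ)| < (2 : ℝ) ^ n) (hl1 : 2 * Real.log 2 ≤ a * l) (hB0 : 0 < B)
    (hl2 : B * Real.log 2 ≤ (B * a - 1) * l)
    (hBa : 1 ≤ B * a) (hM : B * (n * Real.log 2) ≤ M)
    (h : ∀ i m, l < i → i ≤ n → m ≤ M → FPz k i m x → (Td k)^[m] x ∉ Qz k τ a i) :
    ∃ m', |(((Td k)^[m'] x : ℤ) : ℝ)| < (2 : ℝ) ^ l ∧
        (m' : ℝ) ≤ B * (Real.log |(x : ℝ)| - Real.log |(((Td k)^[m'] x : ℤ) : ℝ)|) := by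
  have hj1 := lev_lt x
  have hj2 := lev_le hx
  have hjk : lev x ≤ n := by
    have h1 : (2 : ℝ) ^ lev x < (2 : ℝ) ^ (n + 1) := by rw [pow_succ]; linarith
    have := (pow_lt_pow_iff_right₀ (by norm_num : (1 : ℝ) < 2)).1 h1
    omega
  refine time_chain h0 hτ ha hx hxk hl1 hB0 hl2 hBa hM h (lev x) 0 hjk
    ⟨fun j hj => by omega, by simpa using hj1⟩ ?_ (by simp)
  simpa using hj2

end Pool.Agent.TH930.ZT
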