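import Pool.Agent.TH930.HW.Nat
import Pool.Agent.TH930.LT.Param
import Pool.Agent.TH930.PS.Three

set_option autoImplicit false

/-! The integers which do not descend by the factor `exp (-a K)` in `K = ⌊(1+τ)(i-1)⌋` steps of the
`3x+k` map. -/

namespace Pool.Agent.TH930.ZT

open Finset Pool.Agent.H499R2.ND Pool.Agent.H828R3.GP
open Pool.Agent.TH930.EBQ (ones wd cw log3_pos iter_eq wd_length ones_le_length)
open Pool.Agent.TH930.LT (Kt Et cs Kt_ge rate)

open Classical in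
/-- the points of level `i` which do not descend by `exp (-a K)` -/
noncomputable def Qz (k : ℤ) (τ a : ℝ) (i : ℕ) : Finset ℤ :=
  (Icc (-(2 : ℤ) ^ i) ((2 : ℤ) ^ i)).filter fun z => |(z : ℝ)| < (2 : ℝ) ^ i ∧
    (2 : ℝ) ^ i ≤ 2 * |(z : ℝ)| ∧
    |(z : ℝ)| * Real.exp (-(a * Kt τ i)) ≤ |(((Td k)^[Kt τ i] z : ℤ) : ℝ)|

lemma mem_Qz {k : ℤ} {τ a : ℝ} {i : ℕ} {z : ℤ} : z ∈ Qz k τ a i ↔ |(z : ℝ)| < (2 : ℝ) ^ i ∧
    (2 : ℝ) ^ i ≤ 2 * |(z : ℝ)| ∧
    |(z : ℝ)| * Real.exp (-(a * Kt τ i)) ≤ |(((Td k)^[Kt τ i] z : ℤ) : ℝ)| := by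
  classical
  unfold Qz
  rw [mem_filter]
  constructor
  · exact fun h => h.2
  · intro h
    refine ⟨?_, h⟩
    have h1 : |z| < (2 : ℤ) ^ i := by exact_mod_cast h.1
    rw [abs_lt] at h1
    rw [mem_Icc]
    exact ⟨h1.1.le, h1.2.le⟩

lemma Kt_le {τ : ℝ} (hτ : 0 ≤ τ) (i : ℕ) : (Kt τ i : ℝ) ≤ (1 + τ) * ((i - 1 : ℕ) : ℝ) :=
  Nat.floor_le (by positivity)

lemma ones_lower {k : ℤ} (hk : Odd k) {p : ℝ} {K : ℕ} {z : ℤ} (hz : 0 < |(z : ℝ)|)
    (h1 : 2 * (|(k : ℝ)| * 3 ^ K) ≤ Real.exp (p * K * Real.log 3) * |(z : ℝ)|)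
    (h2 : |(z : ℝ)| * Real.exp (-((Real.log 2 - p * Real.log 3) * K)) ≤ |(((Td k)^[K] z : ℤ) : ℝ)|) :
    p * K - Real.log 2 / Real.log 3 ≤ ones (wd k K z) := by
  have h3 := iter_eq hk K z
  rw [Pool.Agent.TH930.PS.T_eq] at h3
  have h3' : (2 : ℝ) ^ K * (((Td k)^[K] z : ℤ) : ℝ) =
      3 ^ ones (wd k K z) * z + k * ((cw (wd k K z) : ℕ) : ℝ) := by exact_mod_cast h3
  have h4 : ((cw (wd k K z) : ℕ) : ℝ) ≤ 3 ^ K := by
    have := Pool.Agent.TH930.HW.cw_le (wd k K z)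
    rw [wd_length] at this
    exact_mod_cast this
  set o := ones (wd k K z) with ho
  have h5 : (2 : ℝ) ^ K * |(((Td k)^[K] z : ℤ) : ℝ)| ≤ 3 ^ o * |(z : ℝ)| + |(k : ℝ)| * 3 ^ K := by
    have e : (2 : ℝ) ^ K * |(((Td k)^[K] z : ℤ) : ℝ)| = |(2 : ℝ) ^ K * (((Td k)^[K] z : ℤ) : ℝ)| := by
      rw [abs_mul, abs_of_pos (by positivity : (0 : ℝ) < 2 ^ K)]
    rw [e, h3']
    refine (abs_add_le _ _).trans ?_
    rw [abs_mul, abs_mul, abs_of_pos (by positivity : (0 : ℝ) < 3 ^ o),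
      abs_of_nonneg (Nat.cast_nonneg (cw (wd k K z)) : (0 : ℝ) ≤ ((cw (wd k K z) : ℕ) : ℝ))]
    have := mul_le_mul_of_nonneg_left h4 (abs_nonneg (k : ℝ))
    linarith
  have h6 : (2 : ℝ) ^ K * Real.exp (-((Real.log 2 - p * Real.log 3) * K)) =
      Real.exp (p * K * Real.log 3) := by
    have e : (2 : ℝ) ^ K = Real.exp (K * Real.log 2) := by
      rw [← Real.log_pow, Real.exp_log (by positivity)]
    rw [e, ← Real.exp_add]
    congr 1; ring
  have h7 : Real.exp (p * K * Real.log 3) * |(z : ℝ)| ≤ 3 ^ o * |(z : ℝ)| + |(k : ℝ)| * 3 ^ K := by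
    refine le_trans ?_ h5
    rw [← h6]
    calc (2 : ℝ) ^ K * Real.exp (-((Real.log 2 - p * Real.log 3) * K)) * |(z : ℝ)|
        = 2 ^ K * (|(z : ℝ)| * Real.exp (-((Real.log 2 - p * Real.log 3) * K))) := by ring
      _ ≤ _ := mul_le_mul_of_nonneg_left h2 (by positivity)
  have h8 : Real.exp (p * K * Real.log 3) * |(z : ℝ)| ≤ (2 * 3 ^ o) * |(z : ℝ)| := by linarith
  have h9 := le_of_mul_le_mul_right h8 hz
  have h10 := Real.log_le_log (Real.exp_pos _) h9
  rw [Real.log_exp, Real.log_mul (by norm_num) (by positivity), Real.log_pow] at h10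
  have h11 : p * K - Real.log 2 / Real.log 3 = (p * K * Real.log 3 - Real.log 2) / Real.log 3 := by
    have := log3_pos.ne'
    field_simp
  rw [h11, div_le_iff₀ log3_pos]
  linarith

lemma cs_le {τ p : ℝ} (hτ0 : 0 < τ) (hτ : τ ≤ (1 / 4) / 1000000) (hp0 : 0 ≤ p) (hp1 : p ≤ 1) :
    cs τ p ≤ 2 := by
  unfold cs
  have h1 : 0 ≤ Real.binEntropy p / Real.log 2 :=
    div_nonneg (Real.binEntropy_nonneg hp0 hp1) (Real.log_nonneg (by norm_num))
  have h2 : 0 < Et τ := Real.exp_pos _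
  nlinarith

/-- the number of the points which do not descend -/
theorem card_Qz {k : ℤ} (hk : Odd k) {τ p : ℝ} (hτ0 : 0 < τ) (hτ : τ ≤ (1 / 4) / 1000000)
    (hp0 : 1 / 2 ≤ p) (hp1 : p ≤ 7 / 10) :
    ∃ C : ℝ, 0 < C ∧ ∀ c : ℝ, c ≤ cs τ p → ∀ i : ℕ, 1 ≤ i →
      ((Qz k τ (Real.log 2 - p * Real.log 3) i).card : ℝ) ≤ C * ((2 : ℝ) ^ i) ^ (1 - c) := by
  classical
  obtain ⟨C, hC, h⟩ := Pool.Agent.TH930.HW.chern (δ := 1 / 4) (τ := τ) (by norm_num) (by norm_num) hτ0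
    (by linarith)
  have hl2 := Real.log_two_lt_d9
  have hl2' := Real.log_two_gt_d9
  have hl0 : 0 < Real.log 2 := by linarith
  have hl3a : Real.log 3 ≤ (159 / 100) * Real.log 2 := by
    have h6 : Real.log ((3 : ℝ) ^ 100) ≤ Real.log ((2 : ℝ) ^ 159) :=
      Real.log_le_log (by norm_num) (by norm_num)
    rw [Real.log_pow, Real.log_pow] at h6
    push_cast at h6
    linarith
  have hl3 := log3_pos
  have hp00 : 0 < p := by linarith
  have hp11 : p < 1 := by linarith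
  set L : ℝ := Real.log p - Real.log (1 - p) with hL
  have hL0 : 0 ≤ L := by
    have := Real.log_le_log (by linarith : (0 : ℝ) < 1 - p) (by linarith : 1 - p ≤ p)
    linarith
  set s : ℝ := Real.log 2 / Real.log 3 * L with hs
  have hk1 : (1 : ℝ) ≤ |(k : ℝ)| := Pool.Agent.TH930.HW.abs_one_le hk
  have hk0 : (0 : ℝ) < |(k : ℝ)| := by linarith
  obtain ⟨i₀, hi₀⟩ := exists_nat_ge (4 / τ * Real.log |(k : ℝ)| + 10 * Real.log (2 * |(k : ℝ)|) + 1)
  have hlk : 0 ≤ Real.log |(k : ℝ)| := Real.log_nonneg hk1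
  have hl2k : 0 ≤ Real.log (2 * |(k : ℝ)|) := Real.log_nonneg (by linarith)
  have hCC : 0 < C * Real.exp s * 8 + 3 * 2 ^ i₀ * 2 ^ i₀ := by positivity
  refine ⟨C * Real.exp s * 8 + 3 * 2 ^ i₀ * 2 ^ i₀, hCC, ?_⟩
  intro c hc i hi
  have h2i : (1 : ℝ) ≤ (2 : ℝ) ^ i := one_le_pow₀ (by norm_num)
  have h2i0 : (0 : ℝ) < (2 : ℝ) ^ i := by positivity
  have hrp : 0 < ((2 : ℝ) ^ i) ^ (1 - c) := Real.rpow_pos_of_pos h2i0 _
  rcases Nat.lt_or_ge i i₀ with hlt | hge
  · have h1 : ((Qz k τ (Real.log 2 - p * Real.log 3) i).card : ℝ) ≤ 3 * 2 ^ i₀ := by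
      have h2 : (Qz k τ (Real.log 2 - p * Real.log 3) i).card ≤ (Icc (-(2 : ℤ) ^ i) ((2 : ℤ) ^ i)).card := by
        unfold Qz
        exact card_filter_le _ _
      have h3 : (Icc (-(2 : ℤ) ^ i) ((2 : ℤ) ^ i)).card = 2 * 2 ^ i + 1 := by
        rw [Int.card_Icc]
        have e : (2 : ℤ) ^ i + 1 - -(2 : ℤ) ^ i = ((2 * 2 ^ i + 1 : ℕ) : ℤ) := by push_cast; ring
        rw [e, Int.toNat_natCast]
      rw [h3] at h2
      have h4 : ((Qz k τ (Real.log 2 - p * Real.log 3) i).card : ℝ) ≤ 2 * 2 ^ i + 1 := by exact_mod_cast h2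
      have h5 : (2 : ℝ) ^ i ≤ 2 ^ i₀ := pow_le_pow_right₀ (by norm_num) hlt.le
      linarith
    have h2 : 1 ≤ (2 : ℝ) ^ i₀ * ((2 : ℝ) ^ i) ^ (1 - c) := by
      have h3 : c ≤ 2 := hc.trans (cs_le hτ0 hτ hp00.le hp11.le)
      have h4 : ((2 : ℝ) ^ i) ^ (-1 : ℝ) ≤ ((2 : ℝ) ^ i) ^ (1 - c) :=
        Real.rpow_le_rpow_of_exponent_le h2i (by linarith)
      rw [Real.rpow_neg_one] at h4
      have h5 : (2 : ℝ) ^ i ≤ 2 ^ i₀ := pow_le_pow_right₀ (by norm_num) hlt.le
      calc (1 : ℝ) = 2 ^ i * ((2 : ℝ) ^ i)⁻¹ := (mul_inv_cancel₀ h2i0.ne').symm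
        _ ≤ 2 ^ i₀ * ((2 : ℝ) ^ i) ^ (1 - c) := mul_le_mul h5 h4 (by positivity) (by positivity)
    calc ((Qz k τ (Real.log 2 - p * Real.log 3) i).card : ℝ) ≤ 3 * 2 ^ i₀ * 1 := by linarith
      _ ≤ 3 * 2 ^ i₀ * (2 ^ i₀ * ((2 : ℝ) ^ i) ^ (1 - c)) :=
          mul_le_mul_of_nonneg_left h2 (by positivity)
      _ ≤ _ := by
          have : 0 ≤ C * Real.exp s * 8 * ((2 : ℝ) ^ i) ^ (1 - c) := by positivity
          nlinarith
  · have hiR : (i₀ : ℝ) ≤ i := by exact_mod_cast hge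
    have hin : (0 : ℝ) ≤ i := Nat.cast_nonneg i
    obtain ⟨j, rfl⟩ : ∃ j, i = j + 1 := ⟨i - 1, by omega⟩
    have hjn : (0 : ℝ) ≤ j := Nat.cast_nonneg j
    push_cast at hiR hin
    have hKle : (Kt τ (j + 1) : ℝ) ≤ (1 + τ) * j := by
      have := Kt_le hτ0.le (j + 1)
      rwa [Nat.add_sub_cancel] at this
    have hKge : (1 + τ) * j - 1 ≤ (Kt τ (j + 1) : ℝ) := by
      unfold Kt
      rw [Nat.add_sub_cancel]
      exact (Nat.sub_one_lt_floor _).le
    set K := Kt τ (j + 1) with hK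
    have hKn : (0 : ℝ) ≤ K := Nat.cast_nonneg K
    have hkexp : |(k : ℝ)| ≤ Real.exp (τ / 4 * ((j + 1 : ℕ) : ℝ)) := by
      rw [← Real.log_le_iff_le_exp hk0]
      have h1 : 4 / τ * Real.log |(k : ℝ)| ≤ j + 1 := by linarith
      rw [div_mul_eq_mul_div, div_le_iff₀ hτ0] at h1
      push_cast
      linarith
    have h1 := h k hk (j + 1) hkexp K (by push_cast; nlinarith) p (by linarith) (by linarith) s 0
      (Qz k τ (Real.log 2 - p * Real.log 3) (j + 1)) (by
        intro x hx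
        rw [mem_Qz] at hx
        obtain ⟨x1, x2, x3⟩ := hx
        constructor
        · have : |x| < (2 : ℤ) ^ (j + 1) := by exact_mod_cast x1
          rw [sub_zero]; exact this.le
        · have hx2 : (2 : ℝ) ^ j ≤ |(x : ℝ)| := by
            rw [pow_succ] at x2; linarith
          have hx0 : 0 < |(x : ℝ)| := lt_of_lt_of_le (by positivity) hx2
          have h4 : p * K - Real.log 2 / Real.log 3 ≤ ones (wd k K x) := by
            apply ones_lower hk hx0 _ x3
            have e1 : (3 : ℝ) ^ K = Real.exp (K * Real.log 3) := by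
              rw [← Real.log_pow, Real.exp_log (by positivity)]
            have e2 : (2 : ℝ) ^ j = Real.exp (j * Real.log 2) := by
              rw [← Real.log_pow, Real.exp_log (by positivity)]
            have e3 : 2 * (|(k : ℝ)| * 3 ^ K) = Real.exp (Real.log (2 * |(k : ℝ)|) + K * Real.log 3) := by
              rw [Real.exp_add, Real.exp_log (by positivity), e1]; ring
            rw [e3]
            refine le_trans ?_ (mul_le_mul_of_nonneg_left hx2 (Real.exp_pos _).le)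
            rw [e2, ← Real.exp_add]
            apply Real.exp_le_exp.2
            have h5 : 10 * Real.log (2 * |(k : ℝ)|) ≤ j := by
              have : 0 ≤ 4 / τ * Real.log |(k : ℝ)| := by positivity
              linarith
            have h6 : (1 - p) * (K * Real.log 3) ≤ (1 / 2) * ((1 + τ) * j * Real.log 3) := by
              apply mul_le_mul (by linarith) _ (by positivity) (by norm_num)
              exact mul_le_mul_of_nonneg_right hKle hl3.le
            have h7 : (1 / 2) * ((1 + τ) * j * Real.log 3) ≤ (56 / 100) * j := by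
              have h8 : (1 + τ) * Real.log 3 ≤ 112 / 100 := by nlinarith
              nlinarith
            nlinarith
          have h5 : -(Real.log 2 / Real.log 3) * L ≤ (ones (wd k K x) - p * K) * L :=
            mul_le_mul_of_nonneg_right (by linarith) hL0
          rw [hs]
          linarith)
    refine h1.trans ?_
    set R : ℝ := Real.log 2 - Real.binEntropy p with hR
    have hR0 : 0 ≤ R := by
      have := Real.binEntropy_le_log_two (p := p)
      linarith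
    have hR1 : R ≤ Real.log 2 := by
      have := Real.binEntropy_nonneg hp00.le hp11.le
      linarith
    have hcs : cs τ p * Real.log 2 = (1 + τ) * R - Et τ * Real.log 2 := by
      unfold cs
      rw [hR]
      field_simp
    have hxr : ((2 : ℝ) ^ (j + 1)) ^ (1 - c) = Real.exp ((j + 1) * Real.log 2 * (1 - c)) := by
      rw [Real.rpow_def_of_pos (by positivity), Real.log_pow]
      push_cast; ring_nf
    have hE : Real.exp (-(1 / 4 / (3000 * τ))) ≤ Et τ := by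
      unfold Et
      apply Real.exp_le_exp.2
      rw [neg_le_neg_iff]
      apply div_le_div_of_nonneg_left (by norm_num) (by positivity)
      linarith
    have hE0 : 0 < Et τ := Real.exp_pos _
    have h8e : (8 : ℝ) = Real.exp (3 * Real.log 2) := by
      rw [show (3 : ℝ) * Real.log 2 = Real.log (2 ^ 3) by rw [Real.log_pow]; push_cast; ring,
        Real.exp_log (by positivity)]
      norm_num
    have h2 : C * Real.exp s * Real.exp (((j + 1 : ℕ) : ℝ) * Real.log 2 - K * (Real.log 2 - Real.binEntropy p) +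
        Real.exp (-(1 / 4 / (3000 * τ))) / 50 * ((j + 1 : ℕ) : ℝ)) ≤
        C * Real.exp s * 8 * ((2 : ℝ) ^ (j + 1)) ^ (1 - c) := by
      rw [hxr, mul_assoc (C * Real.exp s), h8e, ← Real.exp_add]
      apply mul_le_mul_of_nonneg_left _ (by positivity)
      apply Real.exp_le_exp.2
      rw [← hR]
      push_cast
      have h4 : ((1 + τ) * j - 1) * R ≤ K * R := mul_le_mul_of_nonneg_right hKge hR0
      have h5 : (j + 1) * (c * Real.log 2) ≤ (j + 1) * ((1 + τ) * R - Et τ * Real.log 2) := by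
        apply mul_le_mul_of_nonneg_left _ (by linarith)
        rw [← hcs]
        exact mul_le_mul_of_nonneg_right hc hl0.le
      have h6 : Real.exp (-(1 / 4 / (3000 * τ))) / 50 * (j + 1) ≤ Et τ * Real.log 2 * (j + 1) := by
        apply mul_le_mul_of_nonneg_right _ (by linarith)
        nlinarith
      have h7 : (2 + τ) * R ≤ 3 * Real.log 2 := by nlinarith
      nlinarith
    refine h2.trans ?_
    apply mul_le_mul_of_nonneg_right _ hrp.le
    have : (0 : ℝ) ≤ 3 * 2 ^ i₀ * 2 ^ i₀ := by positivity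
    linarith

end Pool.Agent.TH930.ZT
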